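import Mathlib
import Pool.Agent.Hhelper59.Rk.Basic
import Pool.Agent.Hhelper59.Rk.Lower
import Pool.Agent.Hhelper59.Rk.Numeric

/-!
# The ratio `R(k+1,k) / R(k,k)` is at most `25`

`ramsey k l` is the least `n` such that every graph on `Fin n` (red = edges, blue = non-edges)
contains a red clique on `k` vertices or a blue clique on `l` vertices.
-/

namespace Pool.Agent.Results.MP_d67c98_co.RatioBounded

open Finset Pool.Agent.Hhelper59.Rk

section main

variable {n k : ℕ} (G : SimpleGraph (Fin n))

/-- In a graph without `(k+1)`-cliques and without independent sets of size `k`, all degrees are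
smaller than `R(k,k)`. -/
theorem degree_lt (hk : 1 ≤ k) (h1 : G.CliqueFree (k + 1)) (h2 : Gᶜ.CliqueFree k)
    [DecidableRel G.Adj] (v : Fin n) (s : Finset (Fin n)) (hs : ∀ w ∈ s, G.Adj v w) :
    s.card < ramsey k k := by
  by_contra hcon
  push Not at hcon
  obtain ⟨l, rfl⟩ : ∃ l, k = l + 1 := ⟨k - 1, by omega⟩
  rcases ramsey_spec G l l s hcon with ⟨t, ht, hc⟩ | ⟨t, ht, hc⟩
  · exact h1 _ (hc.insert (a := v) (fun w hw => hs w (ht hw)))
  · exact h2 t hc

/-- The class of vertices outside `I` with trace `S` on `I` has fewer than `C(k+s-1, s)`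
elements. -/
theorem class_card_lt (hk : 1 ≤ k) (h1 : G.CliqueFree (k + 1)) [DecidableRel G.Adj]
    (I : Finset (Fin n)) (hI : Gᶜ.IsClique I)
    (hmax : ∀ J : Finset (Fin n), Gᶜ.IsClique J → J.card ≤ I.card)
    (S : Finset (Fin n)) (hS : S ⊆ I) (hne : S.Nonempty) :
    ((Finset.univ \ I).filter (fun v => I.filter (G.Adj v) = S)).card <
      (k + S.card - 1).choose S.card := by
  classical
  by_contra hcon
  push Not at hcon
  obtain ⟨l, rfl⟩ : ∃ l, k = l + 1 := ⟨k - 1, by omega⟩
  have e1 : (l + 1 + S.card - 1).choose S.card = (l + S.card).choose l := by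
    rw [show l + 1 + S.card - 1 = l + S.card by omega, ← Nat.choose_symm (by omega)]
    congr 1
    omega
  rw [e1] at hcon
  rcases erdos_szekeres G l S.card _ hcon with ⟨t, ht, hc⟩ | ⟨t, ht, hc⟩
  · obtain ⟨u, hu⟩ := hne
    refine h1 _ (hc.insert (a := u) (fun w hw => ?_))
    have := ht hw
    rw [Finset.mem_filter] at this
    have h3 : u ∈ I.filter (G.Adj w) := by rw [this.2]; exact hu
    rw [Finset.mem_filter] at h3
    exact h3.2.symm
  · have hdisj : Disjoint (I \ S) t := by
      rw [Finset.disjoint_left]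
      intro x hx hxt
      have := ht hxt
      rw [Finset.mem_filter, Finset.mem_sdiff] at this
      rw [Finset.mem_sdiff] at hx
      exact this.1.2 hx.1
    have hcl : Gᶜ.IsClique ((I \ S ∪ t : Finset (Fin n)) : Set (Fin n)) := by
      intro x hx y hy hxy
      rw [Finset.mem_coe, Finset.mem_union] at hx hy
      have key : ∀ a ∈ I \ S, ∀ b ∈ t, Gᶜ.Adj a b := by
        intro a ha b hb
        rw [Finset.mem_sdiff] at ha
        have := ht hb
        rw [Finset.mem_filter, Finset.mem_sdiff] at this
        rw [SimpleGraph.compl_adj]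
        refine ⟨fun h => this.1.2 (h ▸ ha.1), fun h => ha.2 ?_⟩
        rw [← this.2, Finset.mem_filter]
        exact ⟨ha.1, h.symm⟩
      rcases hx with hx | hx <;> rcases hy with hy | hy
      · exact hI (Finset.mem_coe.mpr (Finset.mem_sdiff.mp hx).1)
          (Finset.mem_coe.mpr (Finset.mem_sdiff.mp hy).1) hxy
      · exact key x hx y hy
      · exact (key y hy x hx).symm
      · exact hc.1 (Finset.mem_coe.mpr hx) (Finset.mem_coe.mpr hy) hxy
    have h4 := hmax _ hcl
    rw [Finset.card_union_of_disjoint hdisj, hc.2, Finset.card_sdiff_of_subset hS] at h4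
    have := Finset.card_le_card hS
    omega

/-- The counting inequality. -/
theorem count (hk : 1 ≤ k) (h1 : G.CliqueFree (k + 1)) (h2 : Gᶜ.CliqueFree k)
    (hn : n = 25 * ramsey k k) (hR : 1 ≤ ramsey k k) :
    ∃ t m : ℕ, t ≤ k - 1 ∧ 25 * m ≤ t ∧
      ramsey k k ≤ m * ∑ s ∈ Finset.Icc 1 m, t.choose s * (k + s - 1).choose s := by
  classical
  -- a maximum blue clique
  obtain ⟨I, hI, hmax⟩ : ∃ I : Finset (Fin n), Gᶜ.IsClique I ∧
      ∀ J : Finset (Fin n), Gᶜ.IsClique J → J.card ≤ I.card := by
    obtain ⟨I, hI, hmax⟩ := Finset.exists_max_image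
      (Finset.univ.filter (fun J : Finset (Fin n) => Gᶜ.IsClique J)) Finset.card
      ⟨∅, by simp⟩
    rw [Finset.mem_filter] at hI
    exact ⟨I, hI.2, fun J hJ => hmax J (Finset.mem_filter.mpr ⟨Finset.mem_univ _, hJ⟩)⟩
  set M := ramsey k k with hM
  set t := I.card with ht
  have htk : t < k := by
    by_contra hcon
    push Not at hcon
    obtain ⟨J, hJI, hJ⟩ := Finset.exists_subset_card_eq hcon
    exact h2 J ⟨hI.subset (by exact_mod_cast hJI), hJ⟩
  set m := t / 25 with hm
  set W := (Finset.univ : Finset (Fin n)) \ I with hW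
  have hWcard : W.card + t = 25 * M := by
    rw [hW, Finset.card_sdiff_of_subset (Finset.subset_univ _), Finset.card_univ, Fintype.card_fin]
    have : I.card ≤ n := by
      simpa using Finset.card_le_univ I
    omega
  let S : Fin n → Finset (Fin n) := fun v => I.filter (G.Adj v)
  have hSne : ∀ v ∈ W, (S v).Nonempty := by
    intro v hv
    by_contra hcon
    rw [Finset.not_nonempty_iff_eq_empty] at hcon
    rw [hW, Finset.mem_sdiff] at hv
    have hcl : Gᶜ.IsClique ((insert v I : Finset (Fin n)) : Set (Fin n)) := by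
      rw [Finset.coe_insert, SimpleGraph.isClique_insert]
      refine ⟨hI, fun u hu huv => ?_⟩
      rw [SimpleGraph.compl_adj]
      refine ⟨huv, fun h => ?_⟩
      have : u ∈ S v := by
        simp only [S, Finset.mem_filter]
        exact ⟨hu, h⟩
      rw [hcon] at this
      simp at this
    have := hmax _ hcl
    rw [Finset.card_insert_of_notMem hv.2] at this
    omega
  -- double counting
  have hsum : ∑ v ∈ W, (S v).card ≤ t * (M - 1) := by
    have e1 : ∑ v ∈ W, (S v).card = ∑ u ∈ I, (W.filter (fun v => G.Adj v u)).card := by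
      simp only [S, Finset.card_filter]
      rw [Finset.sum_comm]
    rw [e1]
    calc _ ≤ ∑ u ∈ I, (M - 1) := by
          refine Finset.sum_le_sum fun u _ => ?_
          have := degree_lt G hk h1 h2 u (W.filter (fun v => G.Adj v u)) (fun w hw => by
            rw [Finset.mem_filter] at hw
            exact hw.2.symm)
          omega
      _ = _ := by rw [Finset.sum_const, smul_eq_mul]
  set A := W.filter (fun v => (S v).card ≤ m) with hA
  set B := W.filter (fun v => ¬ (S v).card ≤ m) with hB
  have hAB : A.card + B.card = W.card := Finset.card_filter_add_card_filter_not _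
  have hsum2 : A.card + B.card * (m + 1) ≤ ∑ v ∈ W, (S v).card := by
    rw [← Finset.sum_filter_add_sum_filter_not W (fun v => (S v).card ≤ m)]
    refine add_le_add ?_ ?_
    · rw [← hA, Finset.card_eq_sum_ones]
      refine Finset.sum_le_sum fun v hv => ?_
      rw [hA, Finset.mem_filter] at hv
      exact Finset.card_pos.mpr (hSne v hv.1)
    · rw [← hB, ← smul_eq_mul, ← Finset.sum_const]
      refine Finset.sum_le_sum fun v hv => ?_
      rw [hB, Finset.mem_filter] at hv
      omega
  -- upper bound for A
  have hAle : A.card + t * (if 1 ≤ m then 1 else 0) ≤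
      ∑ s ∈ Finset.Icc 1 m, t.choose s * (k + s - 1).choose s := by
    have hsub : A ⊆ (Finset.Icc 1 m).biUnion (fun s => (I.powersetCard s).biUnion
        (fun T => W.filter (fun v => S v = T))) := by
      intro v hv
      rw [hA, Finset.mem_filter] at hv
      simp only [Finset.mem_biUnion]
      refine ⟨(S v).card, ?_, S v, ?_, ?_⟩
      · rw [Finset.mem_Icc]
        exact ⟨Finset.card_pos.mpr (hSne v hv.1), hv.2⟩
      · rw [Finset.mem_powersetCard]
        exact ⟨Finset.filter_subset _ _, rfl⟩
      · rw [Finset.mem_filter]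
        exact ⟨hv.1, rfl⟩
    have hcard : A.card ≤ ∑ s ∈ Finset.Icc 1 m, t.choose s * ((k + s - 1).choose s - 1) := by
      refine (Finset.card_le_card hsub).trans (Finset.card_biUnion_le.trans
        (Finset.sum_le_sum fun s hs => ?_))
      rw [Finset.mem_Icc] at hs
      refine Finset.card_biUnion_le.trans ?_
      calc _ ≤ ∑ T ∈ I.powersetCard s, ((k + s - 1).choose s - 1) := by
            refine Finset.sum_le_sum fun T hT => ?_
            rw [Finset.mem_powersetCard] at hT
            have hTne : T.Nonempty := by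
              rw [← Finset.card_pos]; omega
            have := class_card_lt G hk h1 I hI hmax T hT.1 hTne
            rw [hT.2] at this
            have h5 : (W.filter (fun v => S v = T)).card < (k + s - 1).choose s := this
            omega
        _ = _ := by rw [Finset.sum_const, Finset.card_powersetCard, smul_eq_mul]
    by_cases hm1 : 1 ≤ m
    · rw [if_pos hm1, mul_one]
      have h6 : ∑ s ∈ Finset.Icc 1 m, t.choose s * ((k + s - 1).choose s - 1) + t ≤
          ∑ s ∈ Finset.Icc 1 m, t.choose s * (k + s - 1).choose s := by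
        have h7 : ∑ s ∈ Finset.Icc 1 m, t.choose s ≥ t := by
          have := Finset.single_le_sum (f := fun s => t.choose s) (fun i _ => Nat.zero_le _)
            (Finset.mem_Icc.mpr ⟨le_refl 1, hm1⟩)
          simpa using this
        have h8 : ∑ s ∈ Finset.Icc 1 m, t.choose s * (k + s - 1).choose s =
            ∑ s ∈ Finset.Icc 1 m, t.choose s * ((k + s - 1).choose s - 1) +
            ∑ s ∈ Finset.Icc 1 m, t.choose s := by
          rw [← Finset.sum_add_distrib]
          refine Finset.sum_congr rfl fun s hs => ?_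
          have : 1 ≤ (k + s - 1).choose s := Nat.choose_pos (by omega)
          obtain ⟨c, hc⟩ : ∃ c, (k + s - 1).choose s = c + 1 := ⟨_, (Nat.sub_add_cancel this).symm⟩
          rw [hc, Nat.add_sub_cancel, mul_add, mul_one]
        omega
      omega
    · rw [if_neg hm1, mul_zero, add_zero]
      refine hcard.trans (Finset.sum_le_sum fun s _ => ?_)
      exact Nat.mul_le_mul_left _ (Nat.sub_le _ _)
  refine ⟨t, m, by omega, by omega, ?_⟩
  -- final arithmetic
  have h25 : t < 25 * (m + 1) := by omega
  have h9 : A.card + B.card * (m + 1) ≤ t * (M - 1) := hsum2.trans hsum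
  obtain ⟨M', hM'⟩ : ∃ M', M = M' + 1 := ⟨M - 1, by omega⟩
  rw [hM', Nat.add_sub_cancel] at h9
  have h10 : M ≤ m * (A.card + t) := by
    rw [hM'] at hWcard ⊢
    zify at h9 hAB hWcard h25 ⊢
    nlinarith
  rcases Nat.eq_zero_or_pos m with hm0 | hm0
  · rw [hm0, zero_mul] at h10
    omega
  · rw [if_pos (show 1 ≤ m from hm0), mul_one] at hAle
    exact h10.trans (Nat.mul_le_mul_left _ hAle)

end main

/-- **Theorem.** For every `k ≥ 1`, `R(k+1, k) ≤ 25 R(k, k)`. -/
theorem result : ∀ k : ℕ, 1 ≤ k →
    Pool.Agent.Hhelper59.Rk.ramsey (k + 1) k ≤ 25 * Pool.Agent.Hhelper59.Rk.ramsey k k := by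
  intro k hk
  by_contra hcon
  push Not at hcon
  have hR : 1 ≤ ramsey k k := by
    by_contra hc
    have h0 : ramsey k k = 0 := by omega
    obtain ⟨l, rfl⟩ : ∃ l, k = l + 1 := ⟨k - 1, by omega⟩
    rcases ramsey_spec (⊥ : SimpleGraph (Fin 1)) l l ∅ (by simp [h0]) with ⟨t, ht, hc⟩ | ⟨t, ht, hc⟩
    · have := hc.2
      rw [Finset.subset_empty.mp ht] at this
      simp at this
    · have := hc.2
      rw [Finset.subset_empty.mp ht] at this
      simp at this
  have hmem := Nat.notMem_of_lt_sInf hcon
  have hmem2 : ¬ ∀ G : SimpleGraph (Fin (25 * ramsey k k)),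
      ¬ G.CliqueFree (k + 1) ∨ ¬ Gᶜ.CliqueFree k := hmem
  simp only [not_forall, not_or, not_not] at hmem2
  obtain ⟨G, h1, h2⟩ := hmem2
  obtain ⟨t, m, ht, hmt, hle⟩ := count G hk h1 h2 rfl hR
  rcases Nat.eq_zero_or_pos m with hm0 | hm0
  · rw [hm0, zero_mul] at hle
    omega
  · have h3 := main_ineq k m t hm0 (by omega) ht
    have h4 := two_pow_le k (by omega)
    have h5 := Nat.pow_le_pow_left hle 2
    omega

end Pool.Agent.Results.MP_d67c98_co.RatioBounded
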