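import Mathlib
import Pool.Agent.RkG.Mean

/-!
# Entropy bound for consecutive Ramsey numbers; the geometric mean of `R(k+1,k) / R(k,k)`
-/

set_option autoImplicit false

namespace Pool.Agent.Results.MP_d67c98_co.RatioEntropy

open Filter Pool.Agent.Hhelper59.Rk Pool.Agent.RkG

/-- `ramsey k l` is the Ramsey number `R(k,l)`, `Real.binEntropy` the binary entropy function
`h(x) = -x log x - (1-x) log (1-x)` (natural logarithms), `ρ_k = R(k+1,k) / R(k,k)`. -/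
theorem result :
    (∀ k l N : ℕ, 1 ≤ k → 1 ≤ l → N < ramsey (k + 1) l → ramsey k l * (k + l) ≤ N * k →
      (N : ℝ) ≤ Real.exp (l * Real.binEntropy (ramsey k l / N) +
        k * Real.binEntropy (l * ramsey k l / (k * N)))) ∧
    (∀ c : ℝ, 2 < c → c * Real.log c < 2 * (c - 1) * Real.log (c - 1) →
      ∃ C : ℝ, ∀ K : ℕ,
        ∏ k ∈ Finset.Icc 1 K, ((ramsey (k + 1) k : ℝ) / ramsey k k) ≤ C * c ^ K) ∧
    (∃ C : ℝ, ∀ K : ℕ,
      ∏ k ∈ Finset.Icc 1 K, ((ramsey (k + 1) k : ℝ) / ramsey k k) ≤ C * (27 / 8) ^ K) ∧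
    (∀ δ : ℝ, 0 < δ → ∃ᶠ k in atTop, (ramsey (k + 1) k : ℝ) / ramsey k k < 27 / 8 + δ) ∧
    (∀ L : ℝ, Tendsto (fun k : ℕ => (ramsey (k + 1) k : ℝ) / ramsey k k) atTop (nhds L) →
      L ≤ 27 / 8) ∧
    (∀ M : ℝ, 2 < M → ∀ ε : ℝ, 0 < ε → ∃ C : ℝ, ∀ K : ℕ,
      (((Finset.Icc 1 K).filter
        (fun k => M ≤ (ramsey (k + 1) k : ℝ) / ramsey k k)).card : ℝ) * Real.log M ≤
          (2 * Real.binEntropy M⁻¹ + ε) * K + C) ∧
    (∀ᶠ k in atTop, (ramsey (k + 1) k : ℝ) / ramsey k k < 24) := by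
  obtain ⟨C, -, hC⟩ := prod_bound (c := 27 / 8) (by norm_num) cond_27_8
  refine ⟨fun k l N hk hl hN hR => entropy_bound hk hl hN hR, fun c hc h => ?_, ⟨C, hC⟩,
    fun δ hδ => frequently_lt (by norm_num) hC hδ, fun L hL => limit_le (by norm_num) hC hL,
    fun M hM ε hε => ?_, eventually_lt_24⟩
  · obtain ⟨C', -, hC'⟩ := prod_bound hc h
    exact ⟨C', hC'⟩
  · obtain ⟨C', hC'⟩ := density hM hε
    refine ⟨C', fun K => ?_⟩
    have e : (Finset.Icc 1 K).filter (fun k => M ≤ (ramsey (k + 1) k : ℝ) / ramsey k k) =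
        (Finset.Icc 1 K).filter (fun k => M ≤ rho k) := by
      refine Finset.filter_congr fun k _ => ?_
      rw [rho]
    rw [e]
    exact hC' K

end Pool.Agent.Results.MP_d67c98_co.RatioEntropy
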